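import Pool.Agent.helper1.FI.SpecQ2
import Pool.Agent.helper59.FI.Base

/-!
# Project fi, block Q2, row QAA (helper44)
-/

set_option autoImplicit false

namespace Pool.Agent.FI

open Pool.Agent.helper58.DC Pool.Agent.DI Pool.Agent.GR Pool.Agent.OB

section
variable {G : Type} [Group G]

/-- the average of the conjugates of `a` -/
noncomputable def QAA_av (Ts : Finset G) (k : ℂ) (a : G → ℂ) : G → ℂ :=
  k • ∑ t ∈ Ts, fun y => a (t⁻¹ * y * t)

theorem QAA_lin (Ts : Finset G) (k : ℂ) (a : G → ℂ) (Φ : (G → ℂ) → ℂ)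
    (h0 : ∀ z w, Φ (z + w) = Φ z + Φ w) (h1 : ∀ (k : ℂ) z, Φ (k • z) = k * Φ z) :
    Φ (QAA_av Ts k a) = k * ∑ t ∈ Ts, Φ (fun y => a (t⁻¹ * y * t)) := by
  have h : IsLinearMap ℂ Φ := ⟨h0, h1⟩
  unfold QAA_av
  rw [h1]
  congr 1
  have h2 : Φ = h.mk' Φ := rfl
  rw [h2, map_sum]

theorem QAA_rsk_add (K : Subgroup G) (z w : G → ℂ) : rsk K (z + w) = rsk K z + rsk K w := by
  funext x
  simp only [rsk, Pi.add_apply]
  split_ifs
  · rfl
  · simp

theorem QAA_rsk_smul (K : Subgroup G) (k : ℂ) (z : G → ℂ) : rsk K (k • z) = k • rsk K z := by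
  funext x
  simp only [rsk, Pi.smul_apply]
  split_ifs
  · rfl
  · simp

end

theorem QAA (hQA2 : QA2_stmt) (hQA3 : QA3_stmt) (hQAV : QAV_stmt) (hBET : BET_stmt) (hCVF : CVF_stmt) : QAA_stmt := by
  intro p M hS G _ _ D x θ χ hR P hP
  classical
  have := Fintype.ofFinite G
  obtain ⟨a₀, ha₀⟩ := hQA2 p M hS G D x θ χ hR P hP
  obtain ⟨-, cadd, csmul, -⟩ := hCVF G
  set T : Subgroup G := TT M D θ ⊓ cz P with hT
  have hCT : cz D ≤ T := le_inf cz_le_TT (cz_mono hP)
  have hpT : ¬ p ∣ (cz D).relIndex T := by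
    intro h
    apply hBET p M hS G D x θ χ hR
    rw [← Subgroup.relIndex_mul_relIndex (cz D) T (TT M D θ) hCT inf_le_left]
    exact Dvd.dvd.mul_right h _
  set Ts : Finset G := Finset.univ.filter (· ∈ T) with hTs
  have hmem : ∀ t, t ∈ Ts ↔ t ∈ T := fun t => by simp [hTs]
  have hfs : ∀ F : G → ℂ, ∑ᶠ t ∈ (T : Set G), F t = ∑ t ∈ Ts, F t := by
    intro F
    rw [finsum_mem_eq_finite_toFinset_sum _ (Set.toFinite _)]
    refine Finset.sum_congr ?_ fun _ _ => rfl
    ext t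
    rw [Set.Finite.mem_toFinset, hmem]
    rfl
  have hcard : (Ts.card : ℂ) = Nat.card T := by
    congr 1
    rw [Nat.card_eq_fintype_card, Fintype.card_subtype]
  have hcard0 : (Nat.card T : ℂ) ≠ 0 := by
    exact_mod_cast Nat.card_pos.ne'
  have hQ3 : ∀ t ∈ T, QA M D (cz P) θ (fun y => a₀ (t⁻¹ * y * t)) :=
    hQA3 G M D P hP hR.com θ hR.th a₀ ha₀
  have hcos : ∀ t c : G, c ∈ cz D → (fun y => a₀ ((t * c)⁻¹ * y * (t * c))) =
      fun y => a₀ (t⁻¹ * y * t) := by
    intro t c hc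
    funext y
    have h1 := ha₀.inv c⁻¹ ((cz D).inv_mem hc) (t⁻¹ * y * t)
    rw [← h1]
    congr 1
    group
  set a : G → ℂ := QAA_av Ts (1 / Nat.card T) a₀ with ha
  -- every linear functional
  have key : ∀ Φ : (G → ℂ) → ℂ, (∀ z w, Φ (z + w) = Φ z + Φ w) → (∀ (k : ℂ) z, Φ (k • z) = k * Φ z) →
      Φ a = (∑ᶠ t ∈ (T : Set G), Φ (fun y => a₀ (t⁻¹ * y * t))) / Nat.card T := by
    intro Φ h0 h1
    rw [hfs, ha, QAA_lin Ts _ a₀ Φ h0 h1]
    ring
  have key0 : ∀ Φ : (G → ℂ) → ℂ, (∀ z w, Φ (z + w) = Φ z + Φ w) → (∀ (k : ℂ) z, Φ (k • z) = k * Φ z) →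
      (∀ t ∈ T, Φ (fun y => a₀ (t⁻¹ * y * t)) = 0) → Φ a = 0 := by
    intro Φ h0 h1 h2
    rw [key Φ h0 h1, hfs, Finset.sum_eq_zero, zero_div]
    intro t ht
    exact h2 t ((hmem t).1 ht)
  have hav : ∀ Φ : (G → ℂ) → ℂ, (∀ t ∈ T, ∀ c ∈ cz D, Φ (fun y => a₀ ((t * c)⁻¹ * y * (t * c))) =
      Φ (fun y => a₀ (t⁻¹ * y * t))) := by
    intro Φ t _ c hc
    rw [hcos t c hc]
  have hinvT : Inv T a := by
    intro s hs y
    have e1 : ∀ y, a y = (∑ t ∈ Ts, a₀ (t⁻¹ * y * t)) / Nat.card T := by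
      intro y
      have h1 := key (fun z => z y) (fun z w => rfl) (fun k z => rfl)
      rw [hfs] at h1
      exact h1
    rw [e1, e1]
    congr 1
    refine Finset.sum_nbij' (fun t => s⁻¹ * t) (fun t => s * t) ?_ ?_ ?_ ?_ ?_
    · intro t ht
      rw [hmem] at ht ⊢
      exact T.mul_mem (T.inv_mem hs) ht
    · intro t ht
      rw [hmem] at ht ⊢
      exact T.mul_mem hs ht
    · intro t _
      simp
    · intro t _
      simp
    · intro t _
      congr 1
      group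
  refine ⟨a, ⟨?_, ?_, ?_, ?_, ?_, ?_, ?_, ?_⟩, hinvT⟩
  · intro y hy
    exact key0 (fun z => z y) (fun z w => rfl) (fun k z => rfl) fun t ht => (hQ3 t ht).sup y hy
  · intro y
    have h1 := key (fun z => z y) (fun z w => rfl) (fun k z => rfl)
    change a y = _ at h1
    rw [h1]
    exact (hQAV p M hS G (cz D) T hCT (fun t => a₀ (t⁻¹ * y * t))
      (hav fun z => z y)).2.2.1 hpT fun t ht => (hQ3 t ht).int y
  · exact fun s hs y => hinvT s (hCT hs) y
  · funext y
    refine sub_eq_zero.1 (key0 (fun z => cv (eBl M (cz D) θ) z y - z y) ?_ ?_ ?_)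
    · intro z w
      simp only [(cadd _ z w).2.1, Pi.add_apply]
      ring
    · intro k z
      simp only [(csmul k _ z).2, Pi.smul_apply, smul_eq_mul]
      ring
    · intro t ht
      simp only [(hQ3 t ht).left, sub_self]
  · funext y
    refine sub_eq_zero.1 (key0 (fun z => cv z (eBl M (cz D) θ) y - z y) ?_ ?_ ?_)
    · intro z w
      simp only [(cadd z w _).1, Pi.add_apply]
      ring
    · intro k z
      simp only [(csmul k z _).1, Pi.smul_apply, smul_eq_mul]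
      ring
    · intro t ht
      simp only [(hQ3 t ht).right, sub_self]
  · funext y
    refine sub_eq_zero.1 (key0 (fun z => cv z (eBl M (cz P) θ) y - z y) ?_ ?_ ?_)
    · intro z w
      simp only [(cadd z w _).1, Pi.add_apply]
      ring
    · intro k z
      simp only [(csmul k z _).1, Pi.smul_apply, smul_eq_mul]
      ring
    · intro t ht
      simp only [(hQ3 t ht).blk, sub_self]
  · intro y
    have h1 := key (fun z => rsk (cz D) z y) (fun z w => by simp only [QAA_rsk_add, Pi.add_apply])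
      (fun k z => by simp only [QAA_rsk_smul, Pi.smul_apply, smul_eq_mul])
    have h2 : rsk (cz D) a y - eBl M (cz D) θ y = (∑ᶠ t ∈ (T : Set G),
        (rsk (cz D) (fun y => a₀ (t⁻¹ * y * t)) y - eBl M (cz D) θ y)) / Nat.card T := by
      rw [hfs, Finset.sum_sub_distrib, Finset.sum_const, nsmul_eq_mul, hcard, sub_div, ← hfs,
        mul_div_cancel_left₀ _ hcard0]
      congr 1
    rw [h2]
    exact (hQAV p M hS G (cz D) T hCT
      (fun t => rsk (cz D) (fun y => a₀ (t⁻¹ * y * t)) y - eBl M (cz D) θ y)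
      (hav fun z => rsk (cz D) z y - eBl M (cz D) θ y)).2.2.2 hpT fun t ht => (hQ3 t ht).cen y
  · intro u hu y
    have h1 := key (fun z => cv (rsk (Cz (cz P) u) z) (eBl M (Cz (cz P) u) θ) y - rsk (Cz (cz P) u) z y)
      (fun z w => by
        simp only [QAA_rsk_add, (cadd _ _ _).1, Pi.add_apply]
        ring)
      (fun k z => by
        simp only [QAA_rsk_smul, (csmul _ _ _).1, Pi.smul_apply, smul_eq_mul]
        ring)
    beta_reduce at h1
    rw [h1]
    exact (hQAV p M hS G (cz D) T hCT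
      (fun t => cv (rsk (Cz (cz P) u) (fun y => a₀ (t⁻¹ * y * t))) (eBl M (Cz (cz P) u) θ) y -
        rsk (Cz (cz P) u) (fun y => a₀ (t⁻¹ * y * t)) y)
      (hav fun z => cv (rsk (Cz (cz P) u) z) (eBl M (Cz (cz P) u) θ) y -
        rsk (Cz (cz P) u) z y)).2.2.2 hpT fun t ht => (hQ3 t ht).loc u hu y

end Pool.Agent.FI
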