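import Pool.Agent.helper83.FI.SpecR
import Pool.Agent.helper28.GR.KYG
import Pool.Agent.helper9.GR.PPT

/-!
# Project fi, block R, row PRJ (helper44)
-/

set_option autoImplicit false

namespace Pool.Agent.FI

open Pool.Agent.helper58.DC Pool.Agent.DI Pool.Agent.GR Pool.Agent.OB

theorem PRJ_dec {p : ℕ} (hp : p.Prime) {G : Type} [Group G] [Finite G] (g : G) :
    ∃ e f : ℕ, g ^ e * g ^ f = g ∧ PEl p (g ^ e) ∧ PReg p (g ^ f) := by
  set n := orderOf g with hn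
  have hn0 : n ≠ 0 := (orderOf_pos g).ne'
  obtain ⟨e, f, h1, h2, h3⟩ := PPT_ex (n := n) hp hn0
  set b := n / p ^ n.factorization p with hb
  have hab : p ^ n.factorization p * b = n := Nat.ordProj_mul_ordCompl_eq_self n p
  have hpb : ¬ p ∣ b := Nat.not_dvd_ordCompl hp hn0
  have hbe : b ∣ e := (Nat.modEq_zero_iff_dvd).mp
    (h2 b ⟨p ^ n.factorization p, by rw [mul_comm]; exact hab.symm⟩ hpb).1
  have haf : p ^ n.factorization p ∣ f := (Nat.modEq_zero_iff_dvd).mp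
    (h1 _ ⟨b, hab.symm⟩ ⟨_, dvd_rfl⟩).2
  refine ⟨e, f, ?_, ⟨n.factorization p, ?_⟩, ?_⟩
  · rw [← pow_add]
    conv_rhs => rw [← pow_one g]
    exact pow_eq_pow_iff_modEq.mpr h3
  · rw [← pow_mul, ← orderOf_dvd_iff_pow_eq_one, ← hn]
    calc n = b * p ^ n.factorization p := by rw [mul_comm]; exact hab.symm
      _ ∣ e * p ^ n.factorization p := Nat.mul_dvd_mul_right hbe _
  · intro hd
    have : orderOf (g ^ f) ∣ b := by
      rw [orderOf_dvd_iff_pow_eq_one, ← pow_mul, ← orderOf_dvd_iff_pow_eq_one, ← hn]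
      calc n = p ^ n.factorization p * b := hab.symm
        _ ∣ f * b := Nat.mul_dvd_mul_right haf _
    exact hpb (hd.trans this)

theorem PRJ (hKEY : KEY_stmt) (hZEA : ZEA_stmt) : PRJ_stmt := by
  intro p M hS G _ _ H i hi g hg hng
  obtain ⟨e, f, hef, hpe, hrf⟩ := PRJ_dec hS.pr g
  set y := g ^ e with hy
  set v := g ^ f with hv
  have hyH : y ∈ H := H.pow_mem hg _
  have hvH : v ∈ H := H.pow_mem hg _
  have hcomm : Commute y v := (Commute.refl g).pow_pow e f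
  have hy1 : y ≠ 1 := by
    intro h
    rw [h, one_mul] at hef
    exact hng (hef ▸ hrf)
  have hpe' : PEl p y⁻¹ := by
    obtain ⟨k, hk⟩ := hpe
    exact ⟨k, by rw [inv_pow, hk, inv_one]⟩
  have hrf' : PReg p v⁻¹ := by
    unfold PReg
    rw [orderOf_inv]
    exact hrf
  have hr1 : PReg p (1 : G) := by
    unfold PReg
    rw [orderOf_one]
    exact hS.pr.one_lt.not_ge ∘ Nat.le_of_dvd one_pos
  have hinvg : (y⁻¹ * v⁻¹)⁻¹ = g := by
    rw [mul_inv_rev, inv_inv, inv_inv, ← hcomm.eq, hef]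
  refine (finsum_mem_congr rfl fun z hz => rfl).trans (hZEA p M hS _ fun r => ?_)
  have key := KYG hKEY p M hS G H i hi.sup hi.int hi.idem y⁻¹ (H.inv_mem hyH) v⁻¹ (H.inv_mem hvH)
    1 H.one_mem 1 H.one_mem hpe' ⟨0, by simp⟩ hrf' hr1 (hcomm.inv_inv) (Commute.one_left 1)
    (fun x => by simp) (fun z _ w _ h _ => by
      exfalso
      apply hy1
      have h1 : y⁻¹ = 1 := by
        calc y⁻¹ = z * (z⁻¹ * y⁻¹ * z) * z⁻¹ := by group
          _ = 1 := by rw [h]; group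
      exact inv_eq_one.1 h1) r
  have h2 : ∑ᶠ z ∈ (H : Set G), i (z * g * z⁻¹) =
      ∑ᶠ z ∈ (H : Set G), i (z⁻¹ * (y⁻¹ * v⁻¹)⁻¹ * z * (1 * 1)) := by
    rw [hinvg]
    refine finsum_mem_eq_of_bijOn (fun z => z⁻¹) ⟨fun z hz => ?_, fun a _ b _ h => inv_injective h,
      fun z hz => ⟨z⁻¹, H.inv_mem hz, inv_inv z⟩⟩ fun z hz => ?_
    · exact H.inv_mem hz
    · simp
  rw [h2]
  exact key

end Pool.Agent.FI
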